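import Mathlib

/-! A Borel family of ill-founded trees with no Borel choice of a good first node. -/

namespace Pool.Agent.MP_591151_lc.Sm

open Set MeasureTheory Filter Topology

/-- The first n terms of a sequence, the last one at the head. -/
def pre {α : Type} (b : ℕ → α) : ℕ → List α
  | 0 => []
  | n + 1 => b n :: pre b n

theorem pre_length {α : Type} (b : ℕ → α) (n : ℕ) : (pre b n).length = n := by
  induction n with
  | zero => rfl
  | succ n ih => simp [pre, ih]

theorem pre_eq {α : Type} {b b' : ℕ → α} {n : ℕ} : pre b n = pre b' n ↔ ∀ k < n, b k = b' k := by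
  induction n with
  | zero => simp [pre]
  | succ n ih =>
    simp only [pre, List.cons.injEq, ih]
    constructor
    · rintro ⟨h1, h2⟩ k hk
      rcases Nat.lt_succ_iff_lt_or_eq.1 hk with h | rfl
      exacts [h2 k h, h1]
    · exact fun h => ⟨h n (Nat.lt_succ_self n), fun k hk => h k (by omega)⟩

theorem meas_bit {ι : Type} (i : ι) (e : Bool) : MeasurableSet {y : ι → Bool | y i = e} :=
  (measurableSet_singleton e).preimage (measurable_pi_apply i)

theorem meas_pre (n : ℕ) (R : List Bool → Prop) :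
    MeasurableSet {y : ℕ → Bool | R (pre y n)} := by
  induction n generalizing R with
  | zero => exact MeasurableSet.const (R [])
  | succ n ih =>
    have : {y : ℕ → Bool | R (pre y (n + 1))} =
        ⋃ e : Bool, {y : ℕ → Bool | y n = e} ∩ {y | R (e :: pre y n)} := by
      ext y; simp [pre]
    rw [this]
    exact MeasurableSet.iUnion fun e => (meas_bit n e).inter (ih fun u => R (e :: u))

/-- The tree has an infinite branch. -/
def Br (T : List ℕ → Prop) : Prop := ∃ b : ℕ → ℕ, ∀ n, T (pre b (n + 1))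

theorem exists_seq {R : List ℕ → Prop} (s0 : ℕ) (h0 : R [s0])
    (h : ∀ s, s ≠ [] → R s → ∃ a, R (a :: s)) : ∃ b : ℕ → ℕ, b 0 = s0 ∧ ∀ n, R (pre b (n + 1)) := by
  choose! f hf using h
  let s : ℕ → List ℕ := fun n => Nat.rec [s0] (fun _ t => f t :: t) n
  have hs : ∀ n, s n ≠ [] ∧ R (s n) := fun n => by
    induction n with
    | zero => exact ⟨by simp [s], h0⟩
    | succ n ih => exact ⟨by simp [s], hf _ ih.1 ih.2⟩
  have e : ∀ n, pre (fun n => (s n).headD 0) (n + 1) = s n := fun n => by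
    induction n with
    | zero => rfl
    | succ n ih => rw [pre, ih]; rfl
  exact ⟨fun n => (s n).headD 0, rfl, fun n => (e n).symm ▸ (hs n).2⟩

theorem tree_rep {A : Set (ℕ → Bool)} (hA : AnalyticSet A) (j : ℕ) :
    ∃ Q : List ℕ → List Bool → Prop, (∀ x, x ∈ A ↔ Br fun s => Q s (pre x s.length)) ∧
      ∀ b n u, Q (pre b (n + 1)) u → b 0 = j := by
  rw [AnalyticSet] at hA
  rcases hA with rfl | ⟨g, hg, rfl⟩
  · exact ⟨fun _ _ => False, fun x => by simp [Br], fun _ _ _ h => h.elim⟩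
  refine ⟨fun s u => ∃ b : ℕ → ℕ, b 0 = j ∧ pre b s.length = s ∧
    pre (g fun k => b (k + 1)) s.length = u, fun x => ⟨?_, ?_⟩, ?_⟩
  · rintro ⟨d, rfl⟩
    exact ⟨fun k => Nat.casesOn k j d, fun n => ⟨fun k => Nat.casesOn k j d, rfl,
      by rw [pre_length], rfl⟩⟩
  · rintro ⟨b, hb⟩
    choose d _ h2 h3 using hb
    simp only [pre_length, pre_eq] at h2 h3
    refine ⟨fun k => b (k + 1), ?_⟩
    have t1 : Tendsto (fun n k => d n (k + 1)) atTop (𝓝 fun k => b (k + 1)) :=
      tendsto_pi_nhds.2 fun k => tendsto_const_nhds.congr'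
        ((eventually_ge_atTop (k + 1)).mono fun n hn => (h2 n (k + 1) (by omega)).symm)
    have t2 : Tendsto (fun n => g fun k => d n (k + 1)) atTop (𝓝 x) :=
      tendsto_pi_nhds.2 fun k => tendsto_const_nhds.congr'
        ((eventually_ge_atTop k).mono fun n hn => (h3 n k (by omega)).symm)
    exact tendsto_nhds_unique ((hg.tendsto _).comp t1) t2
  · rintro b n u ⟨d, h1, h2, -⟩
    rw [pre_length, pre_eq] at h2
    rw [← h2 0 (by omega), h1]

/-- Z is a simulation of T in T'. -/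
def IsSim (T T' : List ℕ → Prop) (Z : List ℕ × List ℕ → Bool) : Prop :=
  ∀ t s a, Z (t, s) = true → T (a :: t) → ∃ a', T' (a' :: s) ∧ Z (a :: t, a' :: s) = true

/-- The pair of nodes lies in a simulation. -/
def Sim (T T' : List ℕ → Prop) (t s : List ℕ) : Prop := ∃ Z, IsSim T T' Z ∧ Z (t, s) = true

theorem Sim.br {T T' : List ℕ → Prop} (h : Sim T T' [] []) (hb : Br T) : Br T' := by
  obtain ⟨Z, hZ, h0⟩ := h
  obtain ⟨b, hb⟩ := hb
  obtain ⟨a, ha, hz⟩ := hZ [] [] (b 0) h0 (hb 0)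
  obtain ⟨d, -, hd⟩ := exists_seq (R := fun s => T' s ∧ Z (pre b s.length, s) = true) a ⟨ha, hz⟩
    fun s hs h => hZ _ s (b s.length) h.2 (hb _)
  exact ⟨d, fun n => (hd n).1⟩

theorem not_sim {T T' : List ℕ → Prop} {t s : List ℕ} (h : ¬ Sim T T' t s) :
    ∃ a, T (a :: t) ∧ ∀ a', T' (a' :: s) → ¬ Sim T T' (a :: t) (a' :: s) := by
  classical
  by_contra hn
  push Not at hn
  refine h ⟨fun p => decide (p = (t, s) ∨ Sim T T' p.1 p.2), fun t' s' a h1 h2 => ?_, by simp⟩
  simp only [decide_eq_true_eq] at h1 ⊢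
  rcases h1 with h1 | ⟨Z, hZ, h1⟩
  · obtain ⟨rfl, rfl⟩ := Prod.mk.inj h1
    obtain ⟨a', h3, h4⟩ := hn a h2
    exact ⟨a', h3, Or.inr h4⟩
  · obtain ⟨a', h3, h4⟩ := hZ _ _ a h1 h2
    exact ⟨a', h3, Or.inr ⟨Z, hZ, h4⟩⟩

theorem sim_total (T T' : List ℕ → Prop) : Sim T T' [] [] ∨ Sim T' T [] [] := by
  classical
  by_contra hn
  rw [not_or] at hn
  have step : ∀ s, (∃ t, ¬ Sim T T' t s ∧ ¬ Sim T' T s t) →
      ∃ a, T' (a :: s) ∧ ∃ t, ¬ Sim T T' t (a :: s) ∧ ¬ Sim T' T (a :: s) t := by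
    rintro s ⟨t, h1, h2⟩
    obtain ⟨a, a1, a2⟩ := not_sim h1
    obtain ⟨a', b1, b2⟩ := not_sim h2
    exact ⟨a', b1, a :: t, a2 a' b1, b2 a a1⟩
  obtain ⟨a, ha⟩ := step [] ⟨[], hn⟩
  obtain ⟨d, -, hd⟩ := exists_seq
    (R := fun s => T' s ∧ ∃ t, ¬ Sim T T' t s ∧ ¬ Sim T' T s t) a ha fun s _ h => step s h.2
  refine hn.1 ⟨fun p => decide (p.2 = pre d p.1.length), fun t s a h1 _ => ?_, by simp [pre]⟩
  simp only [decide_eq_true_eq] at h1 ⊢
  subst h1
  exact ⟨d t.length, (hd _).1, rfl⟩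

/-- The two trees coded by a point. -/
def tr (j : Bool) (y : ℕ → Bool) (s : List ℕ) : Prop :=
  y (Encodable.encode (j, s, pre y s.length)) = true

theorem meas_tr (j : Bool) (s : List ℕ) : MeasurableSet {y | tr j y s} := by
  have : {y | tr j y s} = ⋃ u : List Bool, {y : ℕ → Bool | pre y s.length = u} ∩
      {y | y (Encodable.encode (j, s, u)) = true} := by
    ext y; simp [tr]
  rw [this]
  exact MeasurableSet.iUnion fun u => (meas_pre _ (· = u)).inter (meas_bit _ true)

theorem analytic_sim (j j' : Bool) : AnalyticSet {y | Sim (tr j y) (tr j' y) [] []} := by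
  have h1 : ∀ j s, Measurable fun p : (ℕ → Bool) × (List ℕ × List ℕ → Bool) => tr j p.1 s :=
    fun j s => (measurableSet_setOfPred.1 (meas_tr j s)).comp measurable_fst
  have h2 : ∀ q, Measurable fun p : (ℕ → Bool) × (List ℕ × List ℕ → Bool) => p.2 q = true :=
    fun q => (measurableSet_setOfPred.1 (meas_bit q true)).comp measurable_snd
  have h3 : MeasurableSet {p : (ℕ → Bool) × (List ℕ × List ℕ → Bool) |
      IsSim (tr j p.1) (tr j' p.1) p.2 ∧ p.2 ([], []) = true} :=
    measurableSet_setOfPred.2 ((Measurable.forall fun t => Measurable.forall fun s =>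
      Measurable.forall fun a => (h2 _).imp ((h1 _ _).imp
        (Measurable.exists fun a' => (h1 _ _).and (h2 _)))).and (h2 _))
  convert h3.analyticSet_image measurable_fst using 1
  ext y
  simp [Sim]

theorem exists_trees : ∃ L : (ℕ → Bool) → List ℕ → Prop, (∀ s, MeasurableSet {y | L y s}) ∧
    (∀ y, Br (L y)) ∧
    ∀ f : (ℕ → Bool) → ℕ, Measurable f →
      ¬ ∀ y, ∃ b : ℕ → ℕ, b 0 = f y ∧ ∀ n, L y (pre b (n + 1)) := by
  classical
  obtain ⟨Q0, a0, b0⟩ := tree_rep (analytic_sim false true) 0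
  obtain ⟨Q1, a1, b1⟩ := tree_rep (analytic_sim true false) 1
  refine ⟨fun y s => Q0 s (pre y s.length) ∨ Q1 s (pre y s.length),
    fun s => meas_pre s.length fun u => Q0 s u ∨ Q1 s u, fun y => ?_, fun f hf h => ?_⟩
  · rcases sim_total (tr false y) (tr true y) with h | h
    · obtain ⟨b, hb⟩ := (a0 y).1 h
      exact ⟨b, fun n => Or.inl (hb n)⟩
    · obtain ⟨b, hb⟩ := (a1 y).1 h
      exact ⟨b, fun n => Or.inr (hb n)⟩
  have hC : MeasurableSet (f ⁻¹' {0}) := hf (measurableSet_singleton 0)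
  have an : ∀ C : Set (ℕ → Bool), MeasurableSet C → AnalyticSet C := fun C h => by
    simpa using h.analyticSet_image measurable_id
  obtain ⟨R0, c0, -⟩ := tree_rep (an _ hC) 0
  obtain ⟨R1, c1, -⟩ := tree_rep (an _ hC.compl) 0
  let y : ℕ → Bool := fun m => decide (∃ q : Bool × List ℕ × List Bool,
    Encodable.encode q = m ∧ cond q.1 (R1 q.2.1 q.2.2) (R0 q.2.1 q.2.2))
  have e0 : tr false y = fun s => R0 s (pre y s.length) := by
    funext s
    simp only [tr, y, decide_eq_true_eq, Encodable.encode_inj, exists_eq_left, cond_false]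
  have e1 : tr true y = fun s => R1 s (pre y s.length) := by
    funext s
    simp only [tr, y, decide_eq_true_eq, Encodable.encode_inj, exists_eq_left, cond_true]
  obtain ⟨b, hb0, hb⟩ := h y
  by_cases hy : f y = 0
  · have h1 : Sim (tr false y) (tr true y) [] [] := (a0 y).2 ⟨b, fun n => (hb n).resolve_right
      fun h => by have := b1 _ _ _ h; omega⟩
    have h2 := h1.br (e0 ▸ (c0 y).1 hy)
    exact (c1 y).2 (e1 ▸ h2) hy
  · have h1 : Sim (tr true y) (tr false y) [] [] := (a1 y).2 ⟨b, fun n => (hb n).resolve_left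
      fun h => by have := b0 _ _ _ h; omega⟩
    have h2 := h1.br (e1 ▸ (c1 y).1 hy)
    exact hy ((c0 y).2 (e0 ▸ h2))

end Pool.Agent.MP_591151_lc.Sm
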