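import Mathlib
import Pool.Agent.MP_591151_lc.Defs

/-! The gadget graph of a tree: its distinguishing two-colourings follow branches of the tree. -/

namespace Pool.Agent.MP_591151_lc.Sm

/-- Vertices: a ray with leaves, and three blocks for each non-root node n :: v. -/
inductive V
  | r (n : ℕ)
  | l (n : ℕ)
  | B (v : List ℕ) (n : ℕ) (i j : Bool)
  | P (v : List ℕ) (n : ℕ) (i j : Bool)
  | M (v : List ℕ) (n : ℕ) (a b j : Bool)

/-- The place on the ray of a block. -/
def cd (v : List ℕ) (n t : ℕ) : ℕ := Encodable.encode (v, n, t)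

@[simp] theorem cd_inj {v w : List ℕ} {n m t s : ℕ} :
    cd v n t = cd w m s ↔ v = w ∧ n = m ∧ t = s := by
  rw [cd, cd, Encodable.encode_inj]; simp

/-- The edges, with a direction; L is the set of live nodes. -/
def A (L : List ℕ → Prop) : V → V → Prop
  | .r n, .r m => m = n + 1
  | .r n, .l m => m = n
  | .r k, .B v n _ _ => k = cd v n 0
  | .r k, .P v n i _ => k = cd v n 1 ∨ (k = cd v n 3 ∧ i = false ∧ ¬ L (n :: v))
  | .r k, .M v n _ _ _ => k = cd v n 2
  | .B v n i _, .B w m i' _ => w = v ∧ m = n + 1 ∧ i' = i
  | .B v n i _, .P w m i' _ => w = v ∧ m = n ∧ i' = i ∧ L (n :: v)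
  | .P v n i j, .M w m a b _ => w = v ∧ m = n ∧ j = cond i b a
  | .M v n a b _, .B w m i _ => w = n :: v ∧ m = 0 ∧ i = xor a b
  | _, _ => False

section
variable {L : List ℕ → Prop} {v w : List ℕ} {n m : ℕ} {i j a b i' j' a' b' : Bool}

@[simp] theorem A_rr : A L (.r n) (.r m) ↔ m = n + 1 := Iff.rfl
@[simp] theorem A_rl : A L (.r n) (.l m) ↔ m = n := Iff.rfl
@[simp] theorem A_rB : A L (.r n) (.B w m i' j') ↔ n = cd w m 0 := Iff.rfl
@[simp] theorem A_rP : A L (.r n) (.P w m i' j') ↔
    n = cd w m 1 ∨ (n = cd w m 3 ∧ i' = false ∧ ¬ L (m :: w)) := Iff.rfl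
@[simp] theorem A_rM : A L (.r n) (.M w m a' b' j') ↔ n = cd w m 2 := Iff.rfl
@[simp] theorem A_lr : A L (.l n) (.r m) ↔ False := Iff.rfl
@[simp] theorem A_ll : A L (.l n) (.l m) ↔ False := Iff.rfl
@[simp] theorem A_lB : A L (.l n) (.B w m i' j') ↔ False := Iff.rfl
@[simp] theorem A_lP : A L (.l n) (.P w m i' j') ↔ False := Iff.rfl
@[simp] theorem A_lM : A L (.l n) (.M w m a' b' j') ↔ False := Iff.rfl
@[simp] theorem A_Br : A L (.B v n i j) (.r m) ↔ False := Iff.rfl
@[simp] theorem A_Bl : A L (.B v n i j) (.l m) ↔ False := Iff.rfl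
@[simp] theorem A_BB : A L (.B v n i j) (.B w m i' j') ↔ w = v ∧ m = n + 1 ∧ i' = i := Iff.rfl
@[simp] theorem A_BP : A L (.B v n i j) (.P w m i' j') ↔
    w = v ∧ m = n ∧ i' = i ∧ L (n :: v) := Iff.rfl
@[simp] theorem A_BM : A L (.B v n i j) (.M w m a' b' j') ↔ False := Iff.rfl
@[simp] theorem A_Pr : A L (.P v n i j) (.r m) ↔ False := Iff.rfl
@[simp] theorem A_Pl : A L (.P v n i j) (.l m) ↔ False := Iff.rfl
@[simp] theorem A_PB : A L (.P v n i j) (.B w m i' j') ↔ False := Iff.rfl
@[simp] theorem A_PP : A L (.P v n i j) (.P w m i' j') ↔ False := Iff.rfl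
@[simp] theorem A_PM : A L (.P v n i j) (.M w m a' b' j') ↔
    w = v ∧ m = n ∧ j = cond i b' a' := Iff.rfl
@[simp] theorem A_Mr : A L (.M v n a b j) (.r m) ↔ False := Iff.rfl
@[simp] theorem A_Ml : A L (.M v n a b j) (.l m) ↔ False := Iff.rfl
@[simp] theorem A_MB : A L (.M v n a b j) (.B w m i' j') ↔
    w = n :: v ∧ m = 0 ∧ i' = xor a b := Iff.rfl
@[simp] theorem A_MP : A L (.M v n a b j) (.P w m i' j') ↔ False := Iff.rfl
@[simp] theorem A_MM : A L (.M v n a b j) (.M w m a' b' j') ↔ False := Iff.rfl

end

/-- The gadget graph. -/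
def H (L : List ℕ → Prop) : SimpleGraph V where
  Adj u u' := A L u u' ∨ A L u' u
  symm := ⟨fun _ _ h => h.symm⟩
  loopless := ⟨fun u => by cases u <;> simp⟩

theorem H_adj {L : List ℕ → Prop} {u u' : V} : (H L).Adj u u' ↔ A L u u' ∨ A L u' u := Iff.rfl

theorem twin_ne {X I : Type} {G : SimpleGraph X} {c : X → I} (hc : IsDistinguishing G c) {a b : X}
    (hab : a ≠ b) (h : ∀ u, G.Adj a u ↔ G.Adj b u) : c a ≠ c b := by
  classical
  intro e
  have h1 : ∀ u w, G.Adj (Equiv.swap a b u) w ↔ G.Adj u w := fun u w => by
    rw [Equiv.swap_apply_def]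
    split_ifs with h1 h2
    · rw [h1, h]
    · rw [h2, h]
    · rfl
  have h2 := hc ⟨Equiv.swap a b, fun {u w} => by rw [h1, G.adj_comm, h1, G.adj_comm]⟩
    (fun u => by
      show c (Equiv.swap a b u) = c u
      rw [Equiv.swap_apply_def]
      split_ifs with h1 h2
      · rw [h1, e]
      · rw [h2, e]
      · rfl) a
  exact hab (h2.symm.trans (Equiv.swap_apply_left a b))

/-- The action on the middle vertices. -/
def mv (z s0 s1 a b : Bool) : Bool × Bool :=
  cond z (xor b s1, xor a s0) (xor a s0, xor b s1)

/-- The automorphism with flips x, z and swaps s, fitted to the colouring c on twins. -/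
def sg (c : V → Bool) (x : List ℕ → Bool) (z : List ℕ → ℕ → Bool)
    (s : List ℕ → ℕ → Bool → Bool) : V → V
  | .r n => .r n
  | .l n => .l n
  | .B v n i j => .B v n (xor i (x v))
      (xor j (xor (c (.B v n i false)) (c (.B v n (xor i (x v)) false))))
  | .P v n i j => .P v n (xor i (z v n)) (xor j (s v n i))
  | .M v n a b j => .M v n (mv (z v n) (s v n false) (s v n true) a b).1
      (mv (z v n) (s v n false) (s v n true) a b).2
      (xor j (xor (c (.M v n a b false)) (c (.M v n (mv (z v n) (s v n false) (s v n true) a b).1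
        (mv (z v n) (s v n false) (s v n true) a b).2 false))))

theorem kill {L : List ℕ → Prop} {c : V → Bool} (hc : IsDistinguishing (H L) c)
    (x : List ℕ → Bool) (z : List ℕ → ℕ → Bool) (s : List ℕ → ℕ → Bool → Bool)
    (h1 : ∀ v n, L (n :: v) → z v n = x v) (h2 : ∀ v n, ¬ L (n :: v) → z v n = false)
    (h3 : ∀ v n, xor (s v n false) (s v n true) = x (n :: v))
    (h4 : ∀ v n, z v n = true → s v n false = s v n true)
    (h5 : ∀ v n i j, c (.P v n (xor i (z v n)) (xor j (s v n i))) = c (.P v n i j)) (v : List ℕ) :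
    x v = false := by
  have tB : ∀ v n i j, c (.B v n i j) = xor j (c (.B v n i false)) := fun v n i j => by
    have := twin_ne hc (a := .B v n i true) (b := .B v n i false) (by simp)
      fun u => by cases u <;> simp [H_adj]
    cases j
    · simp
    · revert this
      cases c (.B v n i true) <;> cases c (.B v n i false) <;> simp
  have tM : ∀ v n a b j, c (.M v n a b j) = xor j (c (.M v n a b false)) := fun v n a b j => by
    have := twin_ne hc (a := .M v n a b true) (b := .M v n a b false) (by simp)
      fun u => by cases u <;> simp [H_adj]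
    cases j
    · simp
    · revert this
      cases c (.M v n a b true) <;> cases c (.M v n a b false) <;> simp
  have mv2 : ∀ v n a b, mv (z v n) (s v n false) (s v n true)
      (mv (z v n) (s v n false) (s v n true) a b).1
      (mv (z v n) (s v n false) (s v n true) a b).2 = (a, b) := fun v n a b => by
    have := h4 v n
    revert this
    cases z v n <;> cases s v n false <;> cases s v n true <;> simp [mv]
  have inv : Function.Involutive (sg c x z s) := fun u => by
    cases u with
    | r n => rfl
    | l n => rfl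
    | B v n i j =>
      simp only [sg, Bool.xor_assoc, Bool.xor_self, Bool.xor_false, V.B.injEq, true_and]
      cases c (.B v n i false) <;> cases c (.B v n (xor i (x v)) false) <;> simp
    | P v n i j =>
      have := h4 v n
      simp only [sg]
      revert this
      cases z v n <;> cases i <;> simp <;> intro h <;> simp [h]
    | M v n a b j =>
      simp only [sg, mv2, V.M.injEq, true_and]
      cases c (.M v n a b false) <;>
        cases c (.M v n (mv (z v n) (s v n false) (s v n true) a b).1
          (mv (z v n) (s v n false) (s v n true) a b).2 false) <;> simp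
  have adj : ∀ u u', A L (sg c x z s u) (sg c x z s u') ↔ A L u u' := fun u u' => by
    cases u <;> cases u' <;> simp only [sg, A_rr, A_rl, A_rB, A_rP, A_rM, A_lr, A_ll, A_lB, A_lP, A_lM,
      A_Br, A_Bl, A_BB, A_BP, A_BM, A_Pr, A_Pl, A_PB, A_PP, A_PM, A_Mr, A_Ml, A_MB, A_MP, A_MM]
    · rename_i k v n i j
      by_cases h : L (n :: v)
      · simp [h]
      · simp [h2 v n h]
    · rename_i v n i j w m i' j'
      refine and_congr_right fun e => ?_
      subst e
      simp
    · rename_i v n i j w m i' j'
      refine and_congr_right fun e => and_congr_right fun e' => and_congr_left fun h => ?_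
      subst e e'
      simp [h1 _ _ h]
    · rename_i v n i j w m a b j'
      refine and_congr_right fun e => and_congr_right fun e' => ?_
      subst e e'
      cases z w m <;> cases i <;> simp [mv]
    · rename_i v n a b j w m i j'
      refine and_congr_right fun e => and_congr_right fun _ => ?_
      subst e
      rw [← h3]
      cases z v n <;> cases s v n false <;> cases s v n true <;> cases i <;> cases a <;>
        cases b <;> simp [mv]
  have col : ∀ u, c (sg c x z s u) = c u := fun u => by
    cases u with
    | r n => rfl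
    | l n => rfl
    | B v n i j =>
      rw [sg, tB, tB v n i j]
      cases c (.B v n i false) <;> cases c (.B v n (xor i (x v)) false) <;> simp
    | P v n i j => exact h5 v n i j
    | M v n a b j =>
      rw [sg, tM, tM v n a b j]
      cases c (.M v n a b false) <;>
        cases c (.M v n (mv (z v n) (s v n false) (s v n true) a b).1
          (mv (z v n) (s v n false) (s v n true) a b).2 false) <;> simp
  have := hc ⟨inv.toPerm, fun {u u'} => or_congr (adj u u') (adj u' u)⟩ col (.B v 0 false false)
  have h6 : sg c x z s (.B v 0 false false) = .B v 0 false false := this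
  simp only [sg, V.B.injEq] at h6
  simpa using h6.2.2.1

/-- The gadget of the node n :: v has a monochromatic side. -/
def Mono (c : V → Bool) (v : List ℕ) (n : ℕ) : Prop := ∃ i, c (.P v n i false) = c (.P v n i true)

theorem lower {L : List ℕ → Prop} {c : V → Bool} (hc : IsDistinguishing (H L) c) (v0 : List ℕ)
    (h : ∀ v n, n :: v = v0 → Mono c v n) : ∃ n, L (n :: v0) ∧ Mono c v0 n := by
  classical
  obtain ⟨i0, h0⟩ : ∃ i0, ∀ v n, n :: v = v0 → c (.P v n i0 false) = c (.P v n i0 true) := by
    cases v0 with
    | nil => exact ⟨false, by simp⟩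
    | cons n v =>
      obtain ⟨i, hi⟩ := h v n rfl
      exact ⟨i, fun v' n' e => by obtain ⟨rfl, rfl⟩ := List.cons.inj e; exact hi⟩
  by_contra hn
  have := kill hc (fun v => decide (v = v0)) (fun v n => decide (v = v0 ∧ L (n :: v)))
    (fun v n i => if v = v0 ∧ L (n :: v) then xor (c (.P v n false false)) (c (.P v n true false))
      else decide (n :: v = v0 ∧ i = i0))
    (fun v n h => by simp [h]) (fun v n h => by simp [h])
    (fun v n => by
      by_cases h1 : v = v0 ∧ L (n :: v)
      · simp only [if_pos h1, Bool.xor_self]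
        simp [← h1.1]
      · simp only [if_neg h1]
        by_cases h2 : n :: v = v0 <;> cases i0 <;> simp [h2])
    (fun v n h1 => by
      have h2 : v = v0 ∧ L (n :: v) := by simpa using h1
      simp only [if_pos h2])
    (fun v n i j => by
      by_cases h1 : v = v0 ∧ L (n :: v)
      · simp only [if_pos h1, decide_eq_true h1]
        obtain ⟨rfl, h2⟩ := h1
        have k0 : c (.P v n false false) ≠ c (.P v n false true) := fun e => hn ⟨n, h2, false, e⟩
        have k1 : c (.P v n true false) ≠ c (.P v n true true) := fun e => hn ⟨n, h2, true, e⟩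
        cases i <;> cases j <;> cases e0 : c (.P v n false false) <;>
          cases e1 : c (.P v n true false) <;> simp_all
      · simp only [if_neg h1, decide_eq_false h1, Bool.xor_false]
        by_cases h2 : n :: v = v0 ∧ i = i0
        · have := h0 v n h2.1
          rw [← h2.2] at this
          simp only [decide_eq_true h2]
          cases j <;> simp [this]
        · simp only [decide_eq_false h2, Bool.xor_false]) v0
  simp at this

end Pool.Agent.MP_591151_lc.Sm
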