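import Pool.Agent.MP_591151_lc.Sm.Gr

/-! Rigidity of suitably coloured gadget graphs. -/

namespace Pool.Agent.MP_591151_lc.Sm

theorem ray_aut {σ : ℕ → ℕ} (hs : Function.Surjective σ) (hi : Function.Injective σ)
    (h : ∀ n m, (σ m = σ n + 1 ∨ σ n = σ m + 1) ↔ (m = n + 1 ∨ n = m + 1)) (n : ℕ) : σ n = n := by
  have h0 : σ 0 = 0 := by
    by_contra h0
    obtain ⟨a, ha⟩ := hs (σ 0 - 1)
    obtain ⟨b, hb⟩ := hs (σ 0 + 1)
    have h1 := (h 0 a).1 (by omega)
    have h2 := (h 0 b).1 (by omega)
    have h3 : a = b := by omega
    subst h3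
    omega
  induction n using Nat.strong_induction_on with
  | _ n ih =>
    rcases n with _ | n
    · exact h0
    have h1 := (h n (n + 1)).2 (Or.inl rfl)
    have h2 := ih n (by omega)
    rcases h1 with h1 | h1
    · omega
    · have h3 := ih (σ (n + 1)) (by omega)
      have h4 := hi h3
      omega

theorem leaf_iff {L : List ℕ → Prop} (u : V) :
    (∀ a b, (H L).Adj u a → (H L).Adj u b → a = b) ↔ ∃ n, u = .l n := by
  constructor
  · intro h
    cases u with
    | l n => exact ⟨n, rfl⟩
    | r n => simpa using h (.l n) (.r (n + 1)) (by simp [H_adj]) (by simp [H_adj])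
    | B v n i j =>
      simpa using h (.r (cd v n 0)) (.B v (n + 1) i false) (by simp [H_adj]) (by simp [H_adj])
    | P v n i j =>
      simpa using h (.r (cd v n 1)) (.M v n j j false) (by simp [H_adj]) (by simp [H_adj])
    | M v n a b j =>
      simpa using h (.r (cd v n 2)) (.P v n false a) (by simp [H_adj]) (by simp [H_adj])
  · rintro ⟨n, rfl⟩ a b ha hb
    cases a <;> cases b <;> simp_all [H_adj]

theorem spine_aux {L L' : List ℕ → Prop} (e : H L ≃g H L') (n : ℕ) :
    ∃ m, e (.l n) = .l m ∧ e (.r n) = .r m := by
  obtain ⟨m, hm⟩ := (leaf_iff (L := L') (e (.l n))).1 fun a b ha hb => by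
    obtain ⟨a, rfl⟩ := e.surjective a
    obtain ⟨b, rfl⟩ := e.surjective b
    rw [(leaf_iff (L := L) (.l n)).2 ⟨n, rfl⟩ a b (e.map_adj_iff.1 ha) (e.map_adj_iff.1 hb)]
  refine ⟨m, hm, (leaf_iff (L := L') (.l m)).2 ⟨m, rfl⟩ _ _ ?_ (by simp [H_adj])⟩
  rw [← hm, e.map_adj_iff]
  simp [H_adj]

theorem spine {L L' : List ℕ → Prop} (e : H L ≃g H L') (n : ℕ) :
    e (.l n) = .l n ∧ e (.r n) = .r n := by
  choose σ h1 h2 using spine_aux e
  have := ray_aut (σ := σ) (fun m => by
      obtain ⟨k, -, hk⟩ := spine_aux e.symm m
      refine ⟨k, ?_⟩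
      have h3 := h2 k
      rw [← hk, RelIso.apply_symm_apply] at h3
      exact (V.r.inj h3).symm)
    (fun a b h => V.r.inj (e.injective (by rw [h2, h2, h])))
    (fun a b => by
      have := e.map_adj_iff (v := .r a) (w := .r b)
      rw [h2, h2] at this
      simpa [H_adj] using this) n
  exact ⟨by rw [h1, this], by rw [h2, this]⟩

theorem rigid {L : List ℕ → Prop} {I : Type} {c : V → I} (TA : List ℕ → ℕ → Prop)
    (tB : ∀ v n i j j', c (.B v n i j) = c (.B v n i j') → j = j')
    (tM : ∀ v n a b j j', c (.M v n a b j) = c (.M v n a b j') → j = j')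
    (tA : ∀ v n, TA v n → L (n :: v) ∧
      ∀ i j, c (.P v n i j) = c (.P v n false false) → i = false ∧ j = false)
    (tP : ∀ v n, ¬ TA v n → ∀ i i' j j', c (.P v n i j) = c (.P v n i' j') → j = j')
    (hd : ∀ v, (∃ v' n', v = n' :: v' ∧ ¬ TA v' n') ∨ (∃ n, TA v n) ∨
      ∀ i j, c (.B v 0 i j) = c (.B v 0 false false) → i = false) :
    IsDistinguishing (H L) c := by
  intro e hc
  have sp := spine e
  have blk : ∀ u k, (H L).Adj (.r k) u → (H L).Adj (.r k) (e u) := fun u k h => by
    rw [← (sp k).2, e.map_adj_iff]; exact h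
  have nr : ∀ u m, e u = .r m → u = .r m := fun u m h => e.injective (h.trans (sp m).2.symm)
  have nl : ∀ u m, e u = .l m → u = .l m := fun u m h => e.injective (h.trans (sp m).1.symm)
  have bB : ∀ v n i j, ∃ i' j', e (.B v n i j) = .B v n i' j' := fun v n i j => by
    have h := blk (.B v n i j) (cd v n 0) (by simp [H_adj])
    cases h' : e (.B v n i j) with
    | r m => simpa using nr _ _ h'
    | l m => simpa using nl _ _ h'
    | B w m i' j' =>
      rw [h'] at h
      obtain ⟨rfl, rfl⟩ : v = w ∧ n = m := by simpa [H_adj] using h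
      exact ⟨_, _, rfl⟩
    | P w m i' j' => rw [h'] at h; simp [H_adj] at h
    | M w m a' b' j' => rw [h'] at h; simp [H_adj] at h
  have bP : ∀ v n i j, ∃ i' j', e (.P v n i j) = .P v n i' j' := fun v n i j => by
    have h := blk (.P v n i j) (cd v n 1) (by simp [H_adj])
    cases h' : e (.P v n i j) with
    | r m => simpa using nr _ _ h'
    | l m => simpa using nl _ _ h'
    | B w m i' j' => rw [h'] at h; simp [H_adj] at h
    | P w m i' j' =>
      rw [h'] at h
      obtain ⟨rfl, rfl⟩ : v = w ∧ n = m := by simpa [H_adj] using h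
      exact ⟨_, _, rfl⟩
    | M w m a' b' j' => rw [h'] at h; simp [H_adj] at h
  have bM : ∀ v n a b j, ∃ a' b' j', e (.M v n a b j) = .M v n a' b' j' := fun v n a b j => by
    have h := blk (.M v n a b j) (cd v n 2) (by simp [H_adj])
    cases h' : e (.M v n a b j) with
    | r m => simpa using nr _ _ h'
    | l m => simpa using nl _ _ h'
    | B w m i' j' => rw [h'] at h; simp [H_adj] at h
    | P w m i' j' => rw [h'] at h; simp [H_adj] at h
    | M w m a' b' j' =>
      rw [h'] at h
      obtain ⟨rfl, rfl⟩ : v = w ∧ n = m := by simpa [H_adj] using h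
      exact ⟨_, _, _, rfl⟩
  choose sB jB hB using bB
  choose g h hP using bP
  choose ma mb mj hM using bM
  have rel : ∀ v n i j i' j', sB v (n + 1) i' j' = sB v n i j ↔ i' = i := fun v n i j i' j' => by
    have := e.map_adj_iff (v := .B v n i j) (w := .B v (n + 1) i' j')
    rw [hB, hB] at this
    simpa [H_adj, show ¬ n = n + 1 + 1 by omega] using this
  have hx : ∀ v n i j, sB v n i j = xor i (sB v 0 false false) := fun v n => by
    induction n with
    | zero =>
      intro i j
      have h1 := (rel v 0 i j i false).2 rfl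
      have h2 := rel v 0 false false i false
      rw [h1] at h2
      revert h2
      cases i <;> cases sB v 0 _ j <;> cases sB v 0 false false <;> simp
    | succ n ih =>
      intro i j
      rw [(rel v n i false i j).2 rfl, ih]
  have g1 : ∀ v n, L (n :: v) → ∀ i j, g v n i j = xor i (sB v 0 false false) :=
    fun v n hl i j => by
      have := (e.map_adj_iff (v := .B v n i false) (w := .P v n i j)).2 (by simp [H_adj, hl])
      rw [hB, hP, hx] at this
      simpa [H_adj, hl] using this
  have g2 : ∀ v n, ¬ L (n :: v) → ∀ i j, g v n i j = i := fun v n hl i j => by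
    have := e.map_adj_iff (v := .r (cd v n 3)) (w := .P v n i j)
    rw [(sp _).2, hP] at this
    simp only [H_adj, A_rP, A_Pr, cd_inj, hl] at this
    revert this
    cases i <;> cases g v n _ j <;> simp
  have m1 : ∀ v n a b j, xor (ma v n a b j) (mb v n a b j) =
      xor (xor a b) (sB (n :: v) 0 false false) := fun v n a b j => by
    have := (e.map_adj_iff (v := .M v n a b j) (w := .B (n :: v) 0 (xor a b) false)).2
      (by simp [H_adj])
    rw [hB, hM, hx] at this
    simp only [H_adj, A_MB, A_BM, true_and, or_false] at this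
    exact this.symm
  have m2 : ∀ v n a b j i, h v n i (cond i b a) =
      cond (g v n i (cond i b a)) (mb v n a b j) (ma v n a b j) := fun v n a b j i => by
    have := (e.map_adj_iff (v := .P v n i (cond i b a)) (w := .M v n a b j)).2
      (by simp [H_adj])
    rw [hP, hM] at this
    simpa only [H_adj, A_PM, A_MP, true_and, or_false] using this
  have hj : ∀ v n, ¬ TA v n → ∀ i j, h v n i j = j := fun v n ht i j =>
    tP v n ht (g v n i j) i _ _ (by rw [← hP, hc])
  have ha : ∀ v n, TA v n → g v n false false = false ∧ h v n false false = false :=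
    fun v n ht => (tA v n ht).2 _ _ (by rw [← hP, hc])
  have x0 : ∀ v, sB v 0 false false = false := fun v => by
    rcases hd v with ⟨w, n, rfl, ht⟩ | ⟨n, ht⟩ | ht
    · have k1 := m1 w n false false false
      have k2 := m2 w n false false false false
      have k3 := m2 w n false false false true
      rw [hj w n ht] at k2 k3
      by_cases hl : L (n :: w)
      · rw [g1 w n hl] at k2 k3
        revert k1 k2 k3
        cases sB w 0 false false <;> cases ma w n false false false <;>
          cases mb w n false false false <;> simp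
      · rw [g2 w n hl] at k2 k3
        revert k1 k2 k3
        cases ma w n false false false <;> cases mb w n false false false <;> simp
    · simpa [g1 v n (tA v n ht).1] using (ha v n ht).1
    · exact ht _ (jB v 0 false false) (by rw [← hB, hc])
  have gi : ∀ v n i j, g v n i j = i := fun v n i j => by
    by_cases hl : L (n :: v)
    · rw [g1 v n hl, x0, Bool.xor_false]
    · exact g2 v n hl i j
  have hj' : ∀ v n i j, h v n i j = j := fun v n i j => by
    by_cases ht : TA v n
    · have k0 := (ha v n ht).2
      cases i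
      · cases j
        · exact k0
        · by_contra k
          have : e (.P v n false true) = e (.P v n false false) := by
            rw [hP, hP, gi, gi, k0, Bool.eq_false_iff.2 k]
          simpa using e.injective this
      · have k1 := m1 v n false j false
        have k2 := m2 v n false j false false
        have k3 := m2 v n false j false true
        rw [gi] at k2 k3
        rw [x0] at k1
        simp only [cond_false, cond_true, k0] at k2 k3
        rw [k3]
        rw [← k2] at k1
        simpa using k1
    · exact hj v n ht i j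
  intro u
  cases u with
  | r n => exact (sp n).2
  | l n => exact (sp n).1
  | B v n i j =>
    have k := hc (.B v n i j)
    rw [hB, hx, x0, Bool.xor_false] at k ⊢
    rw [tB _ _ _ _ _ k]
  | P v n i j => rw [hP, gi, hj']
  | M v n a b j =>
    have k2 := m2 v n a b j false
    have k3 := m2 v n a b j true
    rw [gi, hj'] at k2 k3
    simp only [cond_false, cond_true] at k2 k3
    have k := hc (.M v n a b j)
    rw [hM, ← k2, ← k3] at k ⊢
    rw [tM _ _ _ _ _ _ k]

end Pool.Agent.MP_591151_lc.Sm
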