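import Pool.Agent.MP_591151_lc.Sm.NU
import Pool.Agent.MP_591151_lc.Sm.Rg

/-! A smooth Borel graph of bounded degree with D = 2 and Borel D = 3. -/

namespace Pool.Agent.MP_591151_lc.Sm

open Set MeasureTheory

/-- The vertices of the three blocks of a node. -/
def cell (p : List ℕ × ℕ) (q : Fin 3 × Bool × Bool × Bool) : V :=
  if q.1 = 0 then .B p.1 p.2 q.2.1 q.2.2.1 else if q.1 = 1 then .P p.1 p.2 q.2.1 q.2.2.1
  else .M p.1 p.2 q.2.1 q.2.2.1 q.2.2.2

theorem B_mem (v : List ℕ) (n : ℕ) (i j : Bool) : V.B v n i j ∈ range (cell (v, n)) :=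
  ⟨(0, i, j, false), by simp [cell]⟩

theorem P_mem (v : List ℕ) (n : ℕ) (i j : Bool) : V.P v n i j ∈ range (cell (v, n)) :=
  ⟨(1, i, j, false), by simp [cell]⟩

theorem M_mem (v : List ℕ) (n : ℕ) (a b j : Bool) : V.M v n a b j ∈ range (cell (v, n)) :=
  ⟨(2, a, b, j), by simp [cell]⟩

instance : Countable V := by
  have : Function.Surjective (Sum.elim (Sum.elim V.r V.l)
      fun p : (List ℕ × ℕ) × (Fin 3 × Bool × Bool × Bool) => cell p.1 p.2) := fun u => by
    cases u with
    | r n => exact ⟨.inl (.inl n), rfl⟩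
    | l n => exact ⟨.inl (.inr n), rfl⟩
    | B v n i j => obtain ⟨q, h⟩ := B_mem v n i j; exact ⟨.inr ((v, n), q), h⟩
    | P v n i j => obtain ⟨q, h⟩ := P_mem v n i j; exact ⟨.inr ((v, n), q), h⟩
    | M v n a b j => obtain ⟨q, h⟩ := M_mem v n a b j; exact ⟨.inr ((v, n), q), h⟩
  exact this.countable

instance : MeasurableSpace V := ⊤

instance : DiscreteMeasurableSpace V := ⟨fun _ => trivial⟩

theorem nb_cover (L : List ℕ → Prop) (u : V) : ∃ (a b c : V) (p q s : List ℕ × ℕ),
    (H L).neighborSet u ⊆ {a, b, c} ∪ (range (cell p) ∪ (range (cell q) ∪ range (cell s))) := by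
  cases u with
  | r k =>
    by_cases h : ∃ v n t, k = cd v n t
    · obtain ⟨v, n, t, rfl⟩ := h
      refine ⟨.r (cd v n t + 1), .r (cd v n t - 1), .l (cd v n t), (v, n), (v, n), (v, n),
        fun w hw => ?_⟩
      rw [SimpleGraph.mem_neighborSet, H_adj] at hw
      cases w with
      | r m => left; simp at hw ⊢; omega
      | l m => left; simp at hw ⊢; omega
      | B w m i j =>
        obtain ⟨rfl, rfl, -⟩ : v = w ∧ n = m ∧ t = 0 := by simpa using hw
        exact Or.inr (Or.inl (B_mem _ _ _ _))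
      | P w m i j =>
        obtain ⟨rfl, rfl⟩ : v = w ∧ n = m := by
          simp only [A_rP, A_Pr, cd_inj, or_false] at hw
          tauto
        exact Or.inr (Or.inl (P_mem _ _ _ _))
      | M w m a b j =>
        obtain ⟨rfl, rfl, -⟩ : v = w ∧ n = m ∧ t = 2 := by simpa using hw
        exact Or.inr (Or.inl (M_mem _ _ _ _ _))
    · refine ⟨.r (k + 1), .r (k - 1), .l k, ([], 0), ([], 0), ([], 0), fun w hw => ?_⟩
      rw [SimpleGraph.mem_neighborSet, H_adj] at hw
      cases w with
      | r m => left; simp at hw ⊢; omega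
      | l m => left; simp at hw ⊢; omega
      | B w m i j => exact (h ⟨w, m, 0, by simpa using hw⟩).elim
      | P w m i j =>
        simp only [A_rP, A_Pr, or_false] at hw
        exact (hw.elim (fun e => h ⟨w, m, 1, e⟩) fun e => h ⟨w, m, 3, e.1⟩).elim
      | M w m a b j => exact (h ⟨w, m, 2, by simpa using hw⟩).elim
  | l k =>
    refine ⟨.r k, .r k, .r k, ([], 0), ([], 0), ([], 0), fun w hw => ?_⟩
    rw [SimpleGraph.mem_neighborSet, H_adj] at hw
    cases w <;> simp at hw
    simp [hw]
  | B v n i j =>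
    refine ⟨.r (cd v n 0), .r 0, .r 0, (v, n), (v, n + 1),
      if n = 0 then (v.tail, v.headD 0) else (v, n - 1), fun w hw => ?_⟩
    rw [SimpleGraph.mem_neighborSet, H_adj] at hw
    cases w with
    | r m => left; simp at hw ⊢; exact Or.inl hw
    | l m => simp at hw
    | B w m i' j' =>
      simp only [A_BB] at hw
      rcases hw with ⟨rfl, rfl, -⟩ | ⟨rfl, rfl, -⟩
      · exact Or.inr (Or.inr (Or.inl (B_mem _ _ _ _)))
      · exact Or.inr (Or.inr (Or.inr (by simpa using B_mem _ _ _ _)))
    | P w m i' j' =>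
      simp only [A_BP, A_PB, or_false] at hw
      obtain ⟨rfl, rfl, -⟩ := hw
      exact Or.inr (Or.inl (P_mem _ _ _ _))
    | M w m a b j' =>
      simp only [A_BM, A_MB, false_or] at hw
      obtain ⟨rfl, rfl, -⟩ := hw
      exact Or.inr (Or.inr (Or.inr (by simpa using M_mem _ _ _ _ _)))
  | P v n i j =>
    refine ⟨.r (cd v n 1), .r (cd v n 3), .r 0, (v, n), (v, n), (v, n), fun w hw => ?_⟩
    rw [SimpleGraph.mem_neighborSet, H_adj] at hw
    cases w with
    | r m => left; simp at hw ⊢; tauto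
    | l m => simp at hw
    | B w m i' j' =>
      simp only [A_BP, A_PB, false_or] at hw
      obtain ⟨rfl, rfl, -⟩ := hw
      exact Or.inr (Or.inl (B_mem _ _ _ _))
    | P w m i' j' => simp at hw
    | M w m a b j' =>
      simp only [A_PM, A_MP, or_false] at hw
      obtain ⟨rfl, rfl, -⟩ := hw
      exact Or.inr (Or.inl (M_mem _ _ _ _ _))
  | M v n a b j =>
    refine ⟨.r (cd v n 2), .r 0, .r 0, (v, n), (n :: v, 0), (v, n), fun w hw => ?_⟩
    rw [SimpleGraph.mem_neighborSet, H_adj] at hw
    cases w with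
    | r m => left; simp at hw ⊢; exact Or.inl hw
    | l m => simp at hw
    | B w m i' j' =>
      simp only [A_BM, A_MB, or_false] at hw
      obtain ⟨rfl, rfl, -⟩ := hw
      exact Or.inr (Or.inr (Or.inl (B_mem _ _ _ _)))
    | P w m i' j' =>
      simp only [A_PM, A_MP, false_or] at hw
      obtain ⟨rfl, rfl, -⟩ := hw
      exact Or.inr (Or.inl (P_mem _ _ _ _))
    | M w m a b j' => simp at hw

theorem deg_le (L : List ℕ → Prop) (u : V) : ((H L).neighborSet u).encard ≤ 75 := by
  obtain ⟨a, b, c, p, q, s, h⟩ := nb_cover L u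
  have h1 : ∀ p, (range (cell p)).encard ≤ 24 := fun p => by
    rw [← image_univ]
    refine (encard_image_le _ _).trans ?_
    rw [encard_univ, ENat.card_eq_coe_fintype_card]
    simp
  have h2 : ({a, b, c} : Set V).encard ≤ 3 :=
    (encard_insert_le _ _).trans (add_le_add ((encard_insert_le _ _).trans
      (add_le_add (encard_singleton c).le le_rfl)) le_rfl)
  refine (encard_le_encard h).trans ((encard_union_le _ _).trans ?_)
  refine (add_le_add h2 ((encard_union_le _ _).trans (add_le_add (h1 p)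
    ((encard_union_le _ _).trans (add_le_add (h1 q) (h1 s)))))).trans ?_
  norm_num

theorem reach (L : List ℕ → Prop) (u : V) : (H L).Reachable (.r 0) u := by
  have h : ∀ n, (H L).Reachable (.r 0) (.r n) := fun n => by
    induction n with
    | zero => rfl
    | succ n ih => exact ih.trans (SimpleGraph.Adj.reachable (by simp [H_adj]))
  cases u with
  | r n => exact h n
  | l n => exact (h n).trans (SimpleGraph.Adj.reachable (by simp [H_adj]))
  | B v n i j => exact (h (cd v n 0)).trans (SimpleGraph.Adj.reachable (by simp [H_adj]))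
  | P v n i j => exact (h (cd v n 1)).trans (SimpleGraph.Adj.reachable (by simp [H_adj]))
  | M v n a b j => exact (h (cd v n 2)).trans (SimpleGraph.Adj.reachable (by simp [H_adj]))

/-- The disjoint union of the gadget graphs of a family of trees. -/
def Gr (L : (ℕ → Bool) → List ℕ → Prop) : SimpleGraph ((ℕ → Bool) × V) where
  Adj x x' := x.1 = x'.1 ∧ (H (L x.1)).Adj x.2 x'.2
  symm := ⟨fun _ _ h => ⟨h.1.symm, h.1 ▸ h.2.symm⟩⟩
  loopless := ⟨fun _ h => h.2.ne rfl⟩

variable {L : (ℕ → Bool) → List ℕ → Prop}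

theorem Gr_adj {y : ℕ → Bool} {u u' : V} : (Gr L).Adj (y, u) (y, u') ↔ (H (L y)).Adj u u' :=
  ⟨fun h => h.2, fun h => ⟨rfl, h⟩⟩

theorem Gr_reach (x x' : (ℕ → Bool) × V) : (Gr L).Reachable x x' ↔ x.1 = x'.1 := by
  constructor
  · rintro ⟨w⟩
    induction w with
    | nil => rfl
    | cons h _ ih => exact h.1.trans ih
  · obtain ⟨y, u⟩ := x
    obtain ⟨y', u'⟩ := x'
    rintro (rfl : y = y')
    exact ((reach (L y) u).symm.trans (reach (L y) u')).map
      (⟨fun u => (y, u), fun h => Gr_adj.2 h⟩ : H (L y) →g Gr L)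

theorem meas_Gr (hL : ∀ s, MeasurableSet {y | L y s}) :
    MeasurableSet {p : ((ℕ → Bool) × V) × ((ℕ → Bool) × V) | (Gr L).Adj p.1 p.2} := by
  have h1 : ∀ u u', Measurable fun y => A (L y) u u' := fun u u' => by
    have := fun s => measurableSet_setOfPred.1 (hL s)
    cases u <;> cases u' <;> first
      | exact measurable_const
      | exact measurable_const.or (measurable_const.and (measurable_const.and (this _).not))
      | exact measurable_const.and (measurable_const.and (measurable_const.and (this _)))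
  have h2 : Measurable fun p : (ℕ → Bool) × (V × V) => (H (L p.1)).Adj p.2.1 p.2.2 :=
    measurable_from_prod_countable_left fun q => (h1 q.1 q.2).or (h1 q.2 q.1)
  refine (measurableSet_eq_fun measurable_fst.fst measurable_snd.fst).inter ?_
  exact measurableSet_setOfPred.2
    (h2.comp (measurable_fst.fst.prodMk (measurable_fst.snd.prodMk measurable_snd.snd)))

theorem dist_comp {I : Type} {c : (ℕ → Bool) × V → I} (hc : IsDistinguishing (Gr L) c)
    (y : ℕ → Bool) : IsDistinguishing (H (L y)) fun u => c (y, u) := by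
  classical
  intro e he u
  have := hc ⟨Equiv.prodCongrRight fun y' => if y' = y then e.toEquiv else Equiv.refl V, by
      rintro ⟨y1, u1⟩ ⟨y2, u2⟩
      refine and_congr_right ?_
      rintro (rfl : y1 = y2)
      by_cases h : y1 = y
      · subst h
        simpa using e.map_adj_iff
      · simp [h]⟩
    (by
      rintro ⟨y1, u1⟩
      by_cases h : y1 = y
      · subst h
        simpa using he u1
      · simp [h]) (y, u)
  simpa using this

theorem dist_Gr {I : Type} {c : (ℕ → Bool) × V → I}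
    (h1 : ∀ y y', (∀ n, c (y, .l n) = c (y', .l n)) → y = y')
    (h2 : ∀ y, IsDistinguishing (H (L y)) fun u => c (y, u)) : IsDistinguishing (Gr L) c := by
  rintro φ hφ ⟨y, u⟩
  have k1 : ∀ u, (φ (y, u)).1 = (φ (y, .r 0)).1 := fun u =>
    (Gr_reach _ _).1 (((Gr_reach (L := L) (y, u) (y, .r 0)).2 rfl).map φ.toHom)
  generalize (φ (y, .r 0)).1 = y' at k1
  have k2 : ∀ u, φ (y, u) = (y', (φ (y, u)).2) := fun u => Prod.ext (k1 u) rfl
  have k3 : Function.Bijective fun u => (φ (y, u)).2 := by
    refine ⟨fun a b h => ?_, fun b => ?_⟩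
    · have : φ (y, a) = φ (y, b) := Prod.ext ((k1 a).trans (k1 b).symm) h
      exact congrArg Prod.snd (φ.injective this)
    · have := (Gr_reach _ _).1 (((Gr_reach (L := L) (y', b) (φ (y, .r 0))).2
        (k1 _).symm).map φ.symm.toHom)
      have h3 : (φ.symm (y', b)).1 = y := by simpa using this
      refine ⟨(φ.symm (y', b)).2, ?_⟩
      have h4 : (y, (φ.symm (y', b)).2) = φ.symm (y', b) := Prod.ext h3.symm rfl
      simp only [h4, RelIso.apply_symm_apply]
  let e : H (L y) ≃g H (L y') := ⟨Equiv.ofBijective _ k3, fun {a b} => by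
    show (H (L y')).Adj (φ (y, a)).2 (φ (y, b)).2 ↔ _
    rw [← Gr_adj, ← k2, ← k2, φ.map_adj_iff, Gr_adj]⟩
  have k4 : ∀ u, φ (y, u) = (y', e u) := k2
  have k5 : y = y' := h1 _ _ fun n => by rw [← hφ, k4, (spine e n).1]
  subst k5
  rw [k4, h2 y e (fun u => (congrArg c (k4 u)).symm.trans (hφ _)) u]

open Classical in
/-- The two-colouring that follows the branch b. -/
noncomputable def col2 (b : ℕ → ℕ) (y : ℕ → Bool) : V → Bool
  | .r _ => false
  | .l n => y n
  | .B _ _ _ j => j
  | .P v n i j => if ∃ k, n :: v = pre b (k + 1) then !i && !j else j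
  | .M _ _ _ _ j => j

theorem exists_two (h : ∀ y, Br (L y)) :
    ∃ c : (ℕ → Bool) × V → Bool, IsDistinguishing (Gr L) c := by
  choose b hb using h
  refine ⟨fun x => col2 (b x.1) x.1 x.2, dist_Gr (fun y y' h => funext h) fun y => ?_⟩
  refine rigid (fun v n => ∃ k, n :: v = pre (b y) (k + 1)) (fun _ _ _ _ _ h => h)
    (fun _ _ _ _ _ _ h => h) (fun v n h => ⟨?_, fun i j => ?_⟩) (fun v n h i i' j j' => ?_)
    fun v => ?_
  · obtain ⟨k, hk⟩ := h
    exact hk ▸ hb y k
  · simp [col2, h]
  · simp [col2, h]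
  · cases v with
    | nil => exact Or.inr (Or.inl ⟨b y 0, 0, rfl⟩)
    | cons n v =>
      by_cases h : ∃ k, n :: v = pre (b y) (k + 1)
      · obtain ⟨k, hk⟩ := h
        exact Or.inr (Or.inl ⟨b y (k + 1), k + 1, by rw [hk]; rfl⟩)
      · exact Or.inl ⟨v, n, rfl, h⟩

/-- The Borel three-colouring. -/
def col3 (y : ℕ → Bool) : V → Fin 3
  | .r _ => 0
  | .l n => cond (y n) 1 0
  | .B v n i j => if v = [] ∧ n = 0 ∧ i = false ∧ j = false then 2 else cond j 1 0
  | .P _ _ _ j => cond j 1 0
  | .M _ _ _ _ j => cond j 1 0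

theorem exists_three : ∃ c : (ℕ → Bool) × V → Fin 3, Measurable c ∧ IsDistinguishing (Gr L) c := by
  have hb : ∀ j j' : Bool, (cond j 1 0 : Fin 3) = cond j' 1 0 → j = j' := by decide
  refine ⟨fun x => col3 x.1 x.2, measurable_from_prod_countable_left fun u => ?_,
    dist_Gr (fun y y' h => funext fun n => hb _ _ (h n)) fun y => ?_⟩
  · cases u with
    | l n =>
      exact (measurable_of_countable fun b : Bool => (cond b 1 0 : Fin 3)).comp
        (measurable_pi_apply n)
    | _ => exact measurable_const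
  refine rigid (fun _ _ => False) (fun v n i j j' => ?_) (fun _ _ _ _ _ _ h => hb _ _ h)
    (fun _ _ h => h.elim) (fun _ _ _ _ _ _ _ h => hb _ _ h) fun v => ?_
  · by_cases h : v = [] ∧ n = 0 <;> cases i <;> cases j <;> cases j' <;> simp [col3, h]
  · cases v with
    | nil => exact Or.inr (Or.inr fun i j => by cases i <;> cases j <;> simp [col3])
    | cons n v => exact Or.inl ⟨v, n, rfl, id⟩

theorem no_two (hL : ∀ s, MeasurableSet {y | L y s})
    (h : ∀ f : (ℕ → Bool) → ℕ, Measurable f →
      ¬ ∀ y, ∃ b : ℕ → ℕ, b 0 = f y ∧ ∀ n, L y (pre b (n + 1)))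
    {c : (ℕ → Bool) × V → Bool} (hc : Measurable c) : ¬ IsDistinguishing (Gr L) c := by
  classical
  intro hd
  have h0 : ∀ y, ∃ n, L y [n] ∧ Mono (fun u => c (y, u)) [] n := fun y =>
    lower (dist_comp hd y) [] (by simp)
  refine h (fun y => Nat.find (h0 y)) (measurable_find h0 fun n => (hL _).inter ?_) fun y => ?_
  · have : ∀ u, Measurable fun y => c (y, u) := fun u => hc.comp measurable_prodMk_right
    exact measurableSet_setOfPred.2 (Measurable.exists fun i =>
      measurableSet_setOfPred.1 (measurableSet_eq_fun (this _) (this _)))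
  · obtain ⟨b, b0, hb⟩ := exists_seq
      (R := fun s => L y s ∧ ∀ v n, n :: v = s → Mono (fun u => c (y, u)) v n) (Nat.find (h0 y))
      ⟨(Nat.find_spec (h0 y)).1, fun v n e => by
        obtain ⟨rfl, rfl⟩ := List.cons.inj e
        exact (Nat.find_spec (h0 y)).2⟩
      fun s _ hs => by
        obtain ⟨n, h1, h2⟩ := lower (dist_comp hd y) s hs.2
        exact ⟨n, h1, fun v m e => by
          obtain ⟨rfl, rfl⟩ := List.cons.inj e
          exact h2⟩
    exact ⟨b, b0, fun n => (hb n).1⟩

theorem main : ∃ (X : Type) (_ : MeasurableSpace X) (_ : StandardBorelSpace X) (G : SimpleGraph X),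
    MeasurableSet {p : X × X | G.Adj p.1 p.2} ∧
    (∃ d : ℕ, ∀ x, (G.neighborSet x).encard ≤ d) ∧
    (∃ f : X → ℕ → Bool, Measurable f ∧ ∀ x x', G.Reachable x x' ↔ f x = f x') ∧
    (∀ x, {x' | G.Reachable x x'}.Infinite) ∧
    distNumber G = 2 ∧ borelDistNumber G = 3 := by
  obtain ⟨L, h1, h2, h3⟩ := exists_trees
  refine ⟨(ℕ → Bool) × V, inferInstance, inferInstance, Gr L, meas_Gr h1, ⟨75, ?_⟩,
    ⟨Prod.fst, measurable_fst, Gr_reach⟩, fun x => ?_, ?_, ?_⟩
  · rintro ⟨y, u⟩
    have : (Gr L).neighborSet (y, u) ⊆ (fun u => (y, u)) '' (H (L y)).neighborSet u := by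
      rintro ⟨y', u'⟩ ⟨h, h'⟩
      exact ⟨u', h', Prod.ext h rfl⟩
    exact (encard_le_encard this).trans ((encard_image_le _ _).trans (deg_le _ _))
  · exact infinite_of_injective_forall_mem (f := fun n => (x.1, V.r n))
      (fun a b h => V.r.inj (congrArg Prod.snd h)) fun n => (Gr_reach _ _).2 rfl
  · obtain ⟨c, hc⟩ := exists_two h2
    refine IsLeast.csInf_eq ⟨⟨Bool, c, hc, by simp⟩, ?_⟩
    rintro κ ⟨I, d, hd, rfl⟩
    by_contra hlt
    have hsub : Subsingleton I := by
      rw [← Cardinal.le_one_iff_subsingleton]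
      by_contra h
      exact hlt (Cardinal.two_le_iff_one_lt.2 (lt_of_not_ge h))
    refine no_two h1 h3 (c := fun _ => false) measurable_const fun φ _ => ?_
    exact hd φ fun x => Subsingleton.elim _ _
  · obtain ⟨c, hm, hc⟩ := exists_three (L := L)
    refine IsLeast.csInf_eq ⟨⟨Fin 3, inferInstance, inferInstance, c, hm, hc, by simp⟩, ?_⟩
    rintro κ ⟨I, _, _, d, hm, hd, rfl⟩
    by_contra hlt
    have h4 : Cardinal.mk I ≤ Cardinal.mk Bool := by
      have h5 : Cardinal.mk I < Order.succ ((2 : ℕ) : Cardinal) := by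
        rw [Cardinal.succ_natCast]
        exact (lt_of_not_ge hlt).trans_eq (by norm_num)
      simpa using Order.lt_succ_iff.1 h5
    obtain ⟨ι⟩ := (Cardinal.le_def _ _).1 h4
    have : Countable I := ι.injective.countable
    exact no_two h1 h3 ((measurable_of_countable ι).comp hm)
      fun φ hφ => hd φ fun x => ι.injective (hφ x)

end Pool.Agent.MP_591151_lc.Sm
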